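import Pool.Agent.Lib_helper61.TB.DefsE

/-!
# Definitions: Frobenius polynomials, realizations and nodes
-/

set_option autoImplicit false

namespace Pool.Agent.OS

open NumberField Pool.Agent.TT Pool.Agent.TF Polynomial

/-- The absolute Galois group of `K`. -/
abbrev GalK (K : Type) [Field K] [Algebra K Qbar] : Type := Qbar ≃ₐ[K] Qbar

/-- The place of `K` below the prime ideal `𝔓` of the ring of algebraic integers. -/
noncomputable def below (K : Type) [Field K] [Algebra K Qbar] (𝔓 : Ideal (𝓞 Qbar)) : Ideal (𝓞 K) :=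
  𝔓.comap (algebraMap (𝓞 K) (𝓞 Qbar))

/-- The element `σ` of `Gal(Qbar/K)` induces `x ↦ x ^ n` modulo `𝔓`. For `n = 1` these are the
elements of the inertia group of `𝔓`. -/
def Induces {K : Type} [Field K] [Algebra K Qbar] (𝔓 : Ideal (𝓞 Qbar)) (n : ℕ)
    (σ : GalK K) : Prop :=
  ∀ x y : 𝓞 Qbar, (y : Qbar) = σ x → y - x ^ n ∈ 𝔓

/-- The element `σ` induces the Frobenius automorphism `x ↦ x ^ q` modulo `𝔓`, where `q` is the
number of elements of the residue field of `K`. -/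
def IsFrob {K : Type} [Field K] [Algebra K Qbar] (𝔓 : Ideal (𝓞 Qbar)) (σ : GalK K) : Prop :=
  Induces 𝔓 (Nat.card (𝓞 K ⧸ below K 𝔓)) σ

/-- The sum of the `r`-th powers of the roots of `P`, with multiplicity, in the field `k`. -/
noncomputable def powerSum {k : Type} [Field k] (P : k[X]) (r : ℕ) : k :=
  (P.roots.map fun a => a ^ r).sum

open Classical in
/-- The number of the roots of `P` that are roots of unity, with multiplicity, in the field `k`. -/
noncomputable def unityRoots {k : Type} [Field k] (P : k[X]) : ℕ :=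
  (P.roots.filter fun a => ∃ n : ℕ, 0 < n ∧ a ^ n = 1).card

/-- The complex polynomial of the rational polynomial `P`. -/
noncomputable def complexPoly (P : ℚ[X]) : ℂ[X] := P.map (algebraMap ℚ ℂ)

/-- The Frobenius polynomial `P` of degree `d` at the maximal ideal `𝔭` of the numbers `N(F)` (the
numbers of points of the family of strata `S`): `P` is monic of degree `d` with rational
coefficients, and for `1 ≤ r ≤ d` the sum of the `r`-th powers of its complex roots is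
`N(F) / |F| ^ j`, where `F` is the extension of degree `r` of the residue field of `𝔭`. -/
def IsFrobPoly {K : Type} [Field K] {s : ℕ} (S : Fin s → Stratum K) (j : ℕ) (𝔭 : Ideal (𝓞 K))
    (d : ℕ) (P : ℚ[X]) : Prop :=
  P.Monic ∧ P.natDegree = d ∧ ∀ r : ℕ, 1 ≤ r → r ≤ d →
    ∀ (F : Type) [Field F] [Fintype F] (φ : 𝓞 K →+* F), RingHom.ker φ = 𝔭 →
      Fintype.card F = Nat.card (𝓞 K ⧸ 𝔭) ^ r →
        (Fintype.card F : ℂ) ^ j * powerSum (complexPoly P) r = (strataCard φ S : ℤ)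

/-- The representation `ρ` preserves a nondegenerate symmetric form. -/
def Orthogonal {G k : Type} [Group G] [Field k] {m : ℕ} (ρ : G →* Matrix (Fin m) (Fin m) k) :
    Prop :=
  ∃ J : Matrix (Fin m) (Fin m) k, J.transpose = J ∧ J.det ≠ 0 ∧
    ∀ σ, (ρ σ).transpose * J * ρ σ = J

/-- The traces of `ρ` at `𝔓` are `N(F) / |F| ^ j`: for every finite field `F` over the residue field
of `K` and every `σ` that induces `x ↦ x ^ |F|` modulo `𝔓` the trace of `ρ(σ⁻¹)` is
`N(F) / |F| ^ j`. -/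
def TracesAt {K k : Type} [Field K] [Algebra K Qbar] [Field k] {m : ℕ}
    (ρ : GalK K →* Matrix (Fin m) (Fin m) k) {s : ℕ} (S : Fin s → Stratum K) (j : ℕ)
    (𝔓 : Ideal (𝓞 Qbar)) : Prop :=
  ∀ (F : Type) [Field F] [Fintype F] (φ : 𝓞 K →+* F), RingHom.ker φ = below K 𝔓 →
    ∀ σ : GalK K, Induces 𝔓 (Fintype.card F) σ →
      (Fintype.card F : k) ^ j * (ρ σ⁻¹).trace = (strataCard φ S : ℤ)

/-- The inertia group of `𝔓` acts unipotently. -/
def UnipotentAt {K k : Type} [Field K] [Algebra K Qbar] [Field k] {m : ℕ}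
    (ρ : GalK K →* Matrix (Fin m) (Fin m) k) (𝔓 : Ideal (𝓞 Qbar)) : Prop :=
  ∀ τ : GalK K, Induces 𝔓 1 τ → (ρ τ - 1) ^ m = 0

/-- The representation `ρ` over the `ℓ`-adic field `k` is continuous and orthogonal; at all places
of `K` that do not belong to `B` and do not divide `ℓ` its traces are `N(F) / |F| ^ j`; at all
places that do not belong to `B₀` and do not divide `ℓ` the inertia group acts unipotently. -/
structure IsRealization {K k : Type} [Field K] [Algebra K Qbar] [Field k] [TopologicalSpace k]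
    {s : ℕ} (S : Fin s → Stratum K) (j : ℕ) (B B₀ : Finset (Ideal (𝓞 K))) (ℓ : ℕ) {m : ℕ}
    (ρ : GalK K →* Matrix (Fin m) (Fin m) k) : Prop where
  continuous : Continuous ρ
  orthogonal : Orthogonal ρ
  traces : ∀ 𝔓 : Ideal (𝓞 Qbar), 𝔓.IsMaximal → (ℓ : 𝓞 Qbar) ∉ 𝔓 → below K 𝔓 ∉ B →
    TracesAt ρ S j 𝔓
  unipotent : ∀ 𝔓 : Ideal (𝓞 Qbar), 𝔓.IsMaximal → (ℓ : 𝓞 Qbar) ∉ 𝔓 → below K 𝔓 ∉ B₀ →
    UnipotentAt ρ 𝔓

/-- The inertia group of `𝔓` acts through the identity and one reflection `ρ(s)`: `ρ(s) - 1` has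
rank `1` and `ρ(s)` has the determinant `-1`. -/
def ReflectionAt {K k : Type} [Field K] [Algebra K Qbar] [Field k] {m : ℕ}
    (ρ : GalK K →* Matrix (Fin m) (Fin m) k) (𝔓 : Ideal (𝓞 Qbar)) : Prop :=
  ∃ s : GalK K, Induces 𝔓 1 s ∧ (ρ s - 1).rank = 1 ∧ (ρ s).det = -1 ∧
    ∀ τ : GalK K, Induces 𝔓 1 τ → ρ τ = 1 ∨ ρ τ = ρ s

/-- The invariants of the inertia group of `𝔓`. -/
def inertiaInvariants {K k : Type} [Field K] [Algebra K Qbar] [Field k] {m : ℕ}
    (ρ : GalK K →* Matrix (Fin m) (Fin m) k) (𝔓 : Ideal (𝓞 Qbar)) :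
    Submodule k (Fin m → k) where
  carrier := {v | ∀ τ : GalK K, Induces 𝔓 1 τ → (ρ τ).mulVec v = v}
  add_mem' := by
    intro v w hv hw τ hτ
    rw [Matrix.mulVec_add, hv τ hτ, hw τ hτ]
  zero_mem' := by
    intro τ _
    rw [Matrix.mulVec_zero]
  smul_mem' := by
    intro c v hv τ hτ
    rw [Matrix.mulVec_smul, hv τ hτ]

/-- The matrix `A` maps the subspace `W` to itself, and the trace of this map is `t`. -/
def HasTraceOn {k : Type} [Field k] {m : ℕ} (A : Matrix (Fin m) (Fin m) k)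
    (W : Submodule k (Fin m → k)) (t : k) : Prop :=
  ∃ f : Module.End k W, (∀ v, (f v : Fin m → k) = A.mulVec v) ∧ LinearMap.trace k W f = t

/-- The place `𝔓` is a node of `ρ`: the inertia group acts through the identity and one reflection,
and for every finite field `F` over the residue field of `K` and every `σ` that induces
`x ↦ x ^ |F|` modulo `𝔓` the trace of `ρ(σ⁻¹)` on the invariants of the inertia group is
`N(F) / |F| ^ j`. -/
def IsNode {K k : Type} [Field K] [Algebra K Qbar] [Field k] {m : ℕ}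
    (ρ : GalK K →* Matrix (Fin m) (Fin m) k) {s : ℕ} (S : Fin s → Stratum K) (j : ℕ)
    (𝔓 : Ideal (𝓞 Qbar)) : Prop :=
  ReflectionAt ρ 𝔓 ∧
    ∀ (F : Type) [Field F] [Fintype F] (φ : 𝓞 K →+* F), RingHom.ker φ = below K 𝔓 →
      ∀ σ : GalK K, Induces 𝔓 (Fintype.card F) σ →
        HasTraceOn (ρ σ⁻¹) (inertiaInvariants ρ 𝔓)
          ((strataCard φ S : ℤ) / (Fintype.card F : k) ^ j)

/-- The homomorphism `η` to the group `{1, -1}` is a quadratic (or trivial) character of the Galois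
group that is unramified outside `B₀`. -/
def IsQuadratic {K : Type} [Field K] [Algebra K Qbar] (B₀ : Finset (Ideal (𝓞 K)))
    (η : GalK K →* ℤˣ) : Prop :=
  IsOpen (η.ker : Set (GalK K)) ∧
    ∀ 𝔓 : Ideal (𝓞 Qbar), 𝔓.IsMaximal → below K 𝔓 ∉ B₀ →
      ∀ τ : GalK K, Induces 𝔓 1 τ → η τ = 1

/-- The quadratic character `η` is excluded by a place outside `B`: `η(Frob) = -1`, and `1` and
`-1` are not both roots of the Frobenius polynomial of degree `m`. -/
def ExcludedGood {K : Type} [Field K] [Algebra K Qbar] {s : ℕ} (S : Fin s → Stratum K)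
    (j : ℕ) (B : Finset (Ideal (𝓞 K))) (m : ℕ) (η : GalK K →* ℤˣ) : Prop :=
  ∃ (𝔓 : Ideal (𝓞 Qbar)) (P : ℚ[X]), 𝔓.IsMaximal ∧ below K 𝔓 ∉ B ∧
    (∃ σ : GalK K, IsFrob 𝔓 σ ∧ η σ = -1) ∧
    IsFrobPoly S j (below K 𝔓) m P ∧ (P.eval 1 ≠ 0 ∨ P.eval (-1) ≠ 0)

/-- The quadratic character `η` is excluded by a node of `ρ`: `η` is unramified there and
`η(Frob) = -P(0)`, where `P` is the Frobenius polynomial of degree `m - 1`. -/
def ExcludedNode {K k : Type} [Field K] [Algebra K Qbar] [Field k] {m : ℕ}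
    (ρ : GalK K →* Matrix (Fin m) (Fin m) k) {s : ℕ} (S : Fin s → Stratum K)
    (j : ℕ) (η : GalK K →* ℤˣ) : Prop :=
  ∃ (𝔓 : Ideal (𝓞 Qbar)) (P : ℚ[X]), 𝔓.IsMaximal ∧ IsNode ρ S j 𝔓 ∧
    (∀ τ : GalK K, Induces 𝔓 1 τ → η τ = 1) ∧
    IsFrobPoly S j (below K 𝔓) (m - 1) P ∧ ∃ σ : GalK K, IsFrob 𝔓 σ ∧ ((η σ : ℤ) : ℚ) = -P.eval 0

/-- No open subgroup `H` acts trivially on a nonzero subquotient `W₂ / W₁` of `ρ`. -/
def NoTateClasses {G k : Type} [Group G] [TopologicalSpace G] [Field k] {m : ℕ}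
    (ρ : G →* Matrix (Fin m) (Fin m) k) : Prop :=
  ∀ H : Subgroup G, IsOpen (H : Set G) → ∀ W₁ W₂ : Submodule k (Fin m → k), W₁ ≤ W₂ →
    (∀ σ ∈ H, ∀ x ∈ W₂, (ρ σ).mulVec x - x ∈ W₁) → W₁ = W₂

end Pool.Agent.OS
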