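import Pool.Agent.Lib_helper61.TU.Newt
import Pool.Agent.Lib_helper46.OS.Defs

/-!
# Newton's identities: power sums and polynomials over two fields
-/

set_option autoImplicit false

namespace Pool.Agent.OS

open Finset Polynomial

/-- Newton's identities over a common field, in a range. -/
theorem nw_esymm {K k₁ k₂ : Type} [Field K] [Field k₁] [CharZero k₁] [Field k₂] [CharZero k₂]
    (ι₁ : K →+* k₁) (ι₂ : K →+* k₂) {d₁ d₂ : ℕ} (x₁ : Fin d₁ → k₁) (x₂ : Fin d₂ → k₂) (t : ℕ → K)
    (D : ℕ) (h₁ : ∀ r, 1 ≤ r → r ≤ D → ∑ i, x₁ i ^ r = ι₁ (t r))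
    (h₂ : ∀ r, 1 ≤ r → r ≤ D → ∑ i, x₂ i ^ r = ι₂ (t r))
    (j : ℕ) (hjD : j ≤ D) : ∃ e : K, (Finset.univ.val.map x₁).esymm j = ι₁ e ∧
      (Finset.univ.val.map x₂).esymm j = ι₂ e := by
  induction j using Nat.strong_induction_on with
  | _ j ih =>
    by_cases hj0 : j = 0
    · subst hj0
      refine ⟨1, ?_, ?_⟩
      · rw [map_one]; simp [Multiset.esymm]
      · rw [map_one]; simp [Multiset.esymm]
    have ih' : ∀ a, ∃ e : K, a < j → (Finset.univ.val.map x₁).esymm a = ι₁ e ∧
        (Finset.univ.val.map x₂).esymm a = ι₂ e := by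
      intro a
      by_cases ha : a < j
      · obtain ⟨e, he⟩ := ih a ha (by omega)
        exact ⟨e, fun _ => he⟩
      · exact ⟨0, fun h => absurd h ha⟩
    choose e he using ih'
    set E : K := (-1) ^ (j + 1) *
      ∑ a ∈ antidiagonal j with a.1 < j, (-1) ^ a.1 * e a.1 * t a.2 with hE
    have key : ∀ (k : Type) [Field k] [CharZero k] (ι : K →+* k) (d : ℕ) (x : Fin d → k)
        (_ : ∀ r, 1 ≤ r → r ≤ D → ∑ i, x i ^ r = ι (t r))
        (_ : ∀ a, a < j → (Finset.univ.val.map x).esymm a = ι (e a)),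
        (Finset.univ.val.map x).esymm j = ι (E / j) := by
      intro k _ _ ι d x ht he
      have hN : (j : k) * (Finset.univ.val.map x).esymm j = ι E := by
        have h1 := congrArg (MvPolynomial.aeval x) (MvPolynomial.mul_esymm_eq_sum (Fin d) k j)
        rw [map_mul, map_natCast, MvPolynomial.aeval_esymm_eq_multiset_esymm] at h1
        rw [h1, hE, map_mul, map_mul, map_pow, map_neg, map_one, map_pow, map_neg, map_one,
          map_sum, map_sum]
        congr 1
        apply Finset.sum_congr rfl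
        intro a ha
        simp only [Finset.mem_filter, Finset.HasAntidiagonal.mem_antidiagonal] at ha
        rw [map_mul, map_mul, map_mul, map_mul, map_pow, map_neg, map_one, map_pow, map_neg,
          map_one, MvPolynomial.aeval_esymm_eq_multiset_esymm, he a.1 ha.2]
        congr 1
        rw [MvPolynomial.psum, map_sum]
        simp only [map_pow, MvPolynomial.aeval_X]
        exact ht a.2 (by omega) (by omega)
      have hjk : (j : k) ≠ 0 := by exact_mod_cast hj0
      rw [map_div₀, map_natCast, ← hN]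
      field_simp
    exact ⟨E / j, key k₁ ι₁ d₁ x₁ h₁ (fun a ha => (he a ha).1),
      key k₂ ι₂ d₂ x₂ h₂ (fun a ha => (he a ha).2)⟩

/-- Monic polynomials of degree `d` over two fields whose power sums of the roots are the images of
the same elements of a common field are the images of one polynomial. -/
theorem nw_poly {K k₁ k₂ : Type} [Field K] [Field k₁] [CharZero k₁] [IsAlgClosed k₁] [Field k₂]
    [CharZero k₂] [IsAlgClosed k₂] (ι₁ : K →+* k₁) (ι₂ : K →+* k₂) (d : ℕ) (p₁ : k₁[X])
    (p₂ : k₂[X]) (hp₁ : p₁.Monic) (hp₂ : p₂.Monic) (hd₁ : p₁.natDegree = d)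
    (hd₂ : p₂.natDegree = d) (t : ℕ → K)
    (h₁ : ∀ r, 1 ≤ r → r ≤ d → (p₁.roots.map (fun x => x ^ r)).sum = ι₁ (t r))
    (h₂ : ∀ r, 1 ≤ r → r ≤ d → (p₂.roots.map (fun x => x ^ r)).sum = ι₂ (t r)) :
    ∃ f : K[X], p₁ = f.map ι₁ ∧ p₂ = f.map ι₂ := by
  classical
  have hs₁ : p₁.roots.card = p₁.natDegree := (IsAlgClosed.splits p₁).natDegree_eq_card_roots.symm
  have hs₂ : p₂.roots.card = p₂.natDegree := (IsAlgClosed.splits p₂).natDegree_eq_card_roots.symm
  obtain ⟨d₁, x₁, hx₁⟩ := Pool.Agent.TB.np_family p₁.roots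
  obtain ⟨d₂, x₂, hx₂⟩ := Pool.Agent.TB.np_family p₂.roots
  have hE := nw_esymm ι₁ ι₂ x₁ x₂ t d (by
    intro r hr hrd
    rw [← h₁ r hr hrd, ← hx₁, Multiset.map_map]
    rfl) (by
    intro r hr hrd
    rw [← h₂ r hr hrd, ← hx₂, Multiset.map_map]
    rfl)
  rw [hx₁, hx₂] at hE
  have hE' : ∀ j, ∃ e : K, j ≤ d → p₁.roots.esymm j = ι₁ e ∧ p₂.roots.esymm j = ι₂ e := by
    intro j
    by_cases hj : j ≤ d
    · obtain ⟨e, he⟩ := hE j hj
      exact ⟨e, fun _ => he⟩
    · exact ⟨0, fun h => absurd h hj⟩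
  choose e he using hE'
  refine ⟨∑ j ∈ Finset.range (d + 1), Polynomial.monomial j ((-1) ^ (d - j) * e (d - j)), ?_, ?_⟩
  · ext j
    rw [Polynomial.coeff_map, Polynomial.finsetSum_coeff]
    simp only [Polynomial.coeff_monomial]
    rw [Finset.sum_ite_eq' (Finset.range (d + 1)) j]
    by_cases hj : j ≤ d
    · rw [if_pos (Finset.mem_range.mpr (by omega)),
        Polynomial.coeff_eq_esymm_roots_of_card hs₁ (by rw [hd₁]; exact hj), hp₁.leadingCoeff,
        one_mul, map_mul, map_pow, map_neg, map_one, hd₁, (he (d - j) (by omega)).1]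
    · rw [if_neg (by rw [Finset.mem_range]; omega), map_zero]
      exact Polynomial.coeff_eq_zero_of_natDegree_lt (by rw [hd₁]; omega)
  · ext j
    rw [Polynomial.coeff_map, Polynomial.finsetSum_coeff]
    simp only [Polynomial.coeff_monomial]
    rw [Finset.sum_ite_eq' (Finset.range (d + 1)) j]
    by_cases hj : j ≤ d
    · rw [if_pos (Finset.mem_range.mpr (by omega)),
        Polynomial.coeff_eq_esymm_roots_of_card hs₂ (by rw [hd₂]; exact hj), hp₂.leadingCoeff,
        one_mul, map_mul, map_pow, map_neg, map_one, hd₂, (he (d - j) (by omega)).2]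
    · rw [if_neg (by rw [Finset.mem_range]; omega), map_zero]
      exact Polynomial.coeff_eq_zero_of_natDegree_lt (by rw [hd₂]; omega)

/-- The roots of the characteristic polynomial of a power. -/
theorem nw_pow {k : Type} [Field k] [CharZero k] [IsAlgClosed k] {d : ℕ}
    (M : Matrix (Fin d) (Fin d) k) (n : ℕ) :
    (M ^ n).charpoly.roots = M.charpoly.roots.map (fun x => x ^ n) := by
  classical
  have hcard : M.charpoly.roots.card = d := by
    rw [← (IsAlgClosed.splits M.charpoly).natDegree_eq_card_roots,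
      Matrix.charpoly_natDegree_eq_dim, Fintype.card_fin]
  set s : Multiset k := M.charpoly.roots.map (fun x => x ^ n) with hs
  set p₂ : k[X] := (s.map (fun a => X - C a)).prod with hp₂
  have hr₂ : p₂.roots = s := Polynomial.roots_multiset_prod_X_sub_C s
  have hm₂ : p₂.Monic := Polynomial.monic_multisetProd_X_sub_C s
  have hd₂ : p₂.natDegree = d := by
    rw [hp₂, Polynomial.natDegree_multiset_prod_X_sub_C_eq_card, hs, Multiset.card_map, hcard]
  obtain ⟨f, hf1, hf2⟩ := nw_poly (RingHom.id k) (RingHom.id k) d (M ^ n).charpoly p₂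
    (Matrix.charpoly_monic _) hm₂
    (by rw [Matrix.charpoly_natDegree_eq_dim, Fintype.card_fin]) hd₂
    (fun r => (M ^ (n * r)).trace) (by
      intro r _ _
      rw [← Pool.Agent.TU.tu_mtrace, ← pow_mul]
      rfl) (by
      intro r _ _
      rw [hr₂, hs, Multiset.map_map]
      change _ = (M ^ (n * r)).trace
      rw [Pool.Agent.TU.tu_mtrace]
      congr 1
      apply Multiset.map_congr rfl
      intro x _
      change (x ^ n) ^ r = x ^ (n * r)
      rw [← pow_mul])
  rw [hf1, ← hf2, hr₂]

open Classical in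
/-- The number of the roots of unity among the roots, in an algebraically closed field. -/
theorem nw_unity (P : ℚ[X]) (k : Type) [Field k] [CharZero k] [IsAlgClosed k] :
    ((P.map (algebraMap ℚ k)).roots.filter fun a => ∃ n : ℕ, 0 < n ∧ a ^ n = 1).card =
      unityRoots (complexPoly P) := by
  have key : ∀ (k : Type) [Field k] [CharZero k] [IsAlgClosed k],
      ((P.map (algebraMap ℚ k)).roots.filter fun a => ∃ n : ℕ, 0 < n ∧ a ^ n = 1).card =
      ((P.map (algebraMap ℚ (AlgebraicClosure ℚ))).roots.filter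
        fun a => ∃ n : ℕ, 0 < n ∧ a ^ n = 1).card := by
    intro k _ _ _
    have : Algebra.IsAlgebraic ℚ (AlgebraicClosure ℚ) := AlgebraicClosure.isAlgebraic ℚ
    let ι : AlgebraicClosure ℚ →ₐ[ℚ] k := IsAlgClosed.lift
    have h1 : (P.map (algebraMap ℚ k)) =
        (P.map (algebraMap ℚ (AlgebraicClosure ℚ))).map (ι : AlgebraicClosure ℚ →+* k) := by
      rw [Polynomial.map_map]
      congr 1
      exact Subsingleton.elim _ _
    have h2 : (P.map (algebraMap ℚ k)).roots =
        (P.map (algebraMap ℚ (AlgebraicClosure ℚ))).roots.map (ι : AlgebraicClosure ℚ →+* k) := by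
      rw [h1]
      exact (IsAlgClosed.splits (P.map (algebraMap ℚ (AlgebraicClosure ℚ)))).roots_map _
    rw [h2, Multiset.filter_map, Multiset.card_map]
    congr 1
    apply Multiset.filter_congr
    intro a _
    constructor
    · rintro ⟨n, hn, h⟩
      refine ⟨n, hn, ?_⟩
      apply (ι : AlgebraicClosure ℚ →+* k).injective
      rw [map_pow, h, map_one]
    · rintro ⟨n, hn, h⟩
      refine ⟨n, hn, ?_⟩
      change ((ι : AlgebraicClosure ℚ →+* k) a) ^ n = 1
      rw [← map_pow, h, map_one]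
  rw [key k, unityRoots]
  exact (key ℂ).symm

end Pool.Agent.OS
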