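import Mathlib

/-!
# Linear algebra: a simple eigenvalue and a trivial subquotient give a quadratic character
-/

set_option autoImplicit false

namespace Pool.Agent.OS

open Module

/-- A simple eigenvalue `1`. -/
theorem la_simple {k V : Type} [Field k] [AddCommGroup V] [Module k V] [FiniteDimensional k V]
    (A : End k V) (h : A.charpoly.rootMultiplicity 1 = 1) :
    ∃ e : V, e ≠ 0 ∧ A e = e ∧ (∀ x, A x = x → ∃ c : k, x = c • e) ∧
      ∀ x, A (A x - x) = A x - x → A x = x := by
  have h1 : finrank k (A.maxGenEigenspace 1) = 1 := by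
    rw [LinearMap.finrank_maxGenEigenspace_eq, h]
  have hroot : A.charpoly.IsRoot 1 := by
    rw [← Polynomial.rootMultiplicity_pos (LinearMap.charpoly_monic A).ne_zero, h]
    exact one_pos
  rw [← Module.End.hasEigenvalue_iff_isRoot_charpoly] at hroot
  obtain ⟨e, he⟩ := hroot.exists_hasEigenvector
  have hle : ∀ n : ℕ, ∀ x, ((A - 1) ^ n) x = 0 → x ∈ A.maxGenEigenspace 1 := by
    intro n x hx
    rw [Module.End.mem_maxGenEigenspace]
    refine ⟨n, ?_⟩
    rw [one_smul]
    exact hx
  have hee : A e = e := by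
    have := he.apply_eq_smul
    rwa [one_smul] at this
  have heM : e ∈ A.maxGenEigenspace 1 := hle 1 e (by
    rw [pow_one]
    change A e - e = 0
    rw [hee, sub_self])
  have hne : (⟨e, heM⟩ : A.maxGenEigenspace 1) ≠ 0 := by
    intro h0
    apply he.2
    exact congrArg Subtype.val h0
  have h2 := (finrank_eq_one_iff_of_nonzero' _ hne).mp h1
  have h3 : ∀ x, x ∈ A.maxGenEigenspace 1 → ∃ c : k, x = c • e := by
    intro x hx
    obtain ⟨c, hc⟩ := h2 ⟨x, hx⟩
    exact ⟨c, (congrArg Subtype.val hc).symm⟩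
  refine ⟨e, he.2, hee, ?_, ?_⟩
  · intro x hx
    apply h3
    apply hle 1
    rw [pow_one]
    change A x - x = 0
    rw [hx, sub_self]
  · intro x hx
    obtain ⟨c, hc⟩ := h3 x (by
      apply hle 2
      rw [pow_two]
      change A (A x - x) - (A x - x) = 0
      rw [hx, sub_self])
    rw [hc, map_smul, hee]

/-- An operator with one-dimensional kernel `⟨e⟩`, without Jordan block, that maps `A` to `B`. -/
theorem la_pair {k V : Type} [Field k] [AddCommGroup V] [Module k V] [FiniteDimensional k V]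
    (S : End k V) (e : V) (he : e ≠ 0) (hSe : S e = 0) (hk : ∀ x, S x = 0 → ∃ c : k, x = c • e)
    (hk2 : ∀ x, S (S x) = 0 → S x = 0) (A B : Submodule k V) (hBA : B ≤ A) (hne : B ≠ A)
    (hS : ∀ x ∈ A, S x ∈ B) :
    e ∈ A ∧ e ∉ B ∧ (∀ x ∈ B, ∃ y, x = S y) ∧ ∀ x ∈ A, ∃ c : k, x - c • e ∈ B := by
  have hlt : finrank k B < finrank k A := Submodule.finrank_lt_finrank_of_lt (lt_of_le_of_ne hBA hne)
  have hmap : A.map S ≤ B := by
    rintro _ ⟨x, hx, rfl⟩
    exact hS x hx
  have hrn := LinearMap.finrank_range_add_finrank_ker (S.domRestrict A)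
  rw [LinearMap.range_domRestrict] at hrn
  have hker : finrank k (LinearMap.ker (S.domRestrict A)) ≤ 1 := by
    apply finrank_le_one_iff.mpr
    by_cases heA : e ∈ A
    · refine ⟨⟨⟨e, heA⟩, ?_⟩, ?_⟩
      · rw [LinearMap.mem_ker]
        exact hSe
      · rintro ⟨⟨x, hx⟩, hx2⟩
        rw [LinearMap.mem_ker] at hx2
        obtain ⟨c, hc⟩ := hk x hx2
        refine ⟨c, ?_⟩
        apply Subtype.ext
        apply Subtype.ext
        exact hc.symm
    · refine ⟨0, ?_⟩
      rintro ⟨⟨x, hx⟩, hx2⟩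
      rw [LinearMap.mem_ker] at hx2
      obtain ⟨c, hc⟩ := hk x hx2
      refine ⟨0, ?_⟩
      apply Subtype.ext
      apply Subtype.ext
      rw [smul_zero]
      change (0 : V) = x
      by_cases hc0 : c = 0
      · rw [hc, hc0, zero_smul]
      · exfalso
        apply heA
        have h1 : e = c⁻¹ • x := by rw [hc, smul_smul, inv_mul_cancel₀ hc0, one_smul]
        rw [h1]
        exact A.smul_mem _ hx
  have hle1 := Submodule.finrank_mono hmap
  have hBeq : A.map S = B := by
    apply Submodule.eq_of_le_of_finrank_le hmap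
    omega
  have heA : e ∈ A := by
    by_contra heA
    have h0 : LinearMap.ker (S.domRestrict A) = ⊥ := by
      rw [LinearMap.ker_eq_bot']
      rintro ⟨x, hx⟩ hx2
      obtain ⟨c, hc⟩ := hk x hx2
      apply Subtype.ext
      change x = 0
      by_cases hc0 : c = 0
      · rw [hc, hc0, zero_smul]
      · exfalso
        apply heA
        have h1 : e = c⁻¹ • x := by rw [hc, smul_smul, inv_mul_cancel₀ hc0, one_smul]
        rw [h1]
        exact A.smul_mem _ hx
    rw [h0, finrank_bot] at hrn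
    omega
  have himg : ∀ x ∈ B, ∃ y, x = S y := by
    intro x hx
    rw [← hBeq] at hx
    obtain ⟨y, _, hy⟩ := hx
    exact ⟨y, hy.symm⟩
  have heB : e ∉ B := by
    intro h
    obtain ⟨y, hy⟩ := himg e h
    apply he
    rw [hy]
    apply hk2
    rw [← hy, hSe]
  refine ⟨heA, heB, himg, ?_⟩
  have hsup : B ⊔ Submodule.span k {e} = A := by
    apply Submodule.eq_of_le_of_finrank_le
    · apply sup_le hBA
      rw [Submodule.span_singleton_le_iff_mem]
      exact heA
    · have h1 : B < B ⊔ Submodule.span k {e} := by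
        apply lt_of_le_of_ne le_sup_left
        intro h
        apply heB
        rw [h]
        exact Submodule.mem_sup_right (Submodule.mem_span_singleton_self e)
      have h2 := Submodule.finrank_lt_finrank_of_lt h1
      omega
  intro x hx
  rw [← hsup] at hx
  obtain ⟨y, hy, z, hz, hyz⟩ := Submodule.mem_sup.mp hx
  obtain ⟨c, hc⟩ := Submodule.mem_span_singleton.mp hz
  refine ⟨c, ?_⟩
  rw [hc, ← hyz, add_sub_cancel_right]
  exact hy

/-- A multiplicative function with values `1` and `-1`. -/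
theorem la_sign {k G : Type} [Field k] [Group G] (h2 : (2 : k) ≠ 0) (f : G → k)
    (hmul : ∀ g g', f (g * g') = f g * f g') (hsq : ∀ g, f g * f g = 1) :
    ∃ χ : G →* ℤˣ, ∀ g, ((χ g : ℤ) : k) = f g := by
  classical
  have h11 : (-1 : k) ≠ 1 := by
    intro h
    apply h2
    linear_combination -h
  have hpm : ∀ g, f g = 1 ∨ f g = -1 := fun g => mul_self_eq_one_iff.mp (hsq g)
  refine ⟨MonoidHom.mk' (fun g => if f g = 1 then 1 else -1) ?_, ?_⟩
  · intro g g'
    rw [hmul]
    rcases hpm g with h | h <;> rcases hpm g' with h' | h' <;> simp [h, h', h11]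
  · intro g
    change (((if f g = 1 then 1 else -1 : ℤˣ) : ℤ) : k) = f g
    rcases hpm g with h | h
    · rw [if_pos h, h]
      simp
    · rw [if_neg (by rw [h]; exact h11), h]
      simp

/-- **The character.** The group `G` acts on `V` and preserves a nondegenerate symmetric form, the
normal subgroup `N` acts trivially on the nonzero subquotient `W₂ / W₁`, and the element `h₁` of
`N` has the simple eigenvalue `1`, with the eigenvector `e`. Then `G` acts on `e` modulo a stable
subspace through a quadratic character. -/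
theorem la_chi {k V G : Type} [Field k] [AddCommGroup V] [Module k V] [FiniteDimensional k V]
    [Group G] (h2 : (2 : k) ≠ 0) (π : Representation k G V) (b : V → V → k)
    (hadd : ∀ x y z, b x (y + z) = b x y + b x z) (hsmul : ∀ x (c : k) y, b x (c • y) = c * b x y)
    (hsymm : ∀ x y, b x y = b y x) (hnd : ∀ x, (∀ y, b x y = 0) → x = 0)
    (hinv : ∀ g x y, b (π g x) (π g y) = b x y) (N : Subgroup G) [hN : N.Normal]
    (W₁ W₂ : Submodule k V) (hW : W₁ ≤ W₂) (hne : W₁ ≠ W₂)
    (hT : ∀ h ∈ N, ∀ x ∈ W₂, π h x - x ∈ W₁) (h₁ : G) (hh₁ : h₁ ∈ N)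
    (hs : (π h₁).charpoly.rootMultiplicity 1 = 1) :
    ∃ (χ : G →* ℤˣ) (e : V) (M : Submodule k V), e ∉ M ∧ (∀ g, ∀ x ∈ M, π g x ∈ M) ∧
      (∀ g, π g e - ((χ g : ℤ) : k) • e ∈ M) ∧ ∀ h ∈ N, χ h = 1 := by
  obtain ⟨e, he, hee, hk, hk2⟩ := la_simple (π h₁) hs
  have hππ : ∀ g g' x, π g (π g' x) = π (g * g') x := by
    intro g g' x
    rw [map_mul]
    rfl
  have hπ1 : ∀ x, π 1 x = x := by
    intro x
    rw [map_one]
    rfl
  set S : End k V := π h₁ - 1 with hSdef
  have hSx : ∀ x, S x = π h₁ x - x := fun x => rfl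
  have hSe : S e = 0 := by rw [hSx, hee, sub_self]
  have hkS : ∀ x, S x = 0 → ∃ c : k, x = c • e := by
    intro x hx
    apply hk
    rw [hSx, sub_eq_zero] at hx
    exact hx
  have hk2S : ∀ x, S (S x) = 0 → S x = 0 := by
    intro x hx
    rw [hSx, sub_eq_zero]
    apply hk2
    rw [hSx, sub_eq_zero, hSx] at hx
    exact hx
  let A : G → Submodule k V := fun g => W₂.comap (π g)
  let B : G → Submodule k V := fun g => W₁.comap (π g)
  have hAm : ∀ g x, x ∈ A g ↔ π g x ∈ W₂ := fun g x => Iff.rfl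
  have hBm : ∀ g x, x ∈ B g ↔ π g x ∈ W₁ := fun g x => Iff.rfl
  have hconj : ∀ g, ∀ h ∈ N, ∀ x ∈ A g, π h x - x ∈ B g := by
    intro g h hh x hx
    rw [hBm, map_sub, hππ]
    have h3 : g * h = (g * h * g⁻¹) * g := by group
    rw [h3, ← hππ]
    exact hT _ (hN.conj_mem h hh g) _ hx
  have hgg : ∀ g, e ∈ A g ∧ e ∉ B g := by
    intro g
    have h3 := la_pair S e he hSe hkS hk2S (A g) (B g) (Submodule.comap_mono hW) (by
      intro h
      apply hne
      apply le_antisymm hW
      intro x hx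
      have h4 : π g⁻¹ x ∈ A g := by
        rw [hAm, hππ, mul_inv_cancel, hπ1]
        exact hx
      rw [← h, hBm, hππ, mul_inv_cancel, hπ1] at h4
      exact h4) (fun x hx => hconj g h₁ hh₁ x hx)
    exact ⟨h3.1, h3.2.1⟩
  set T : Submodule k V := ⨅ g, A g with hTdef
  set M : Submodule k V := ⨅ g, B g with hMdef
  have hTm : ∀ x, x ∈ T ↔ ∀ g, π g x ∈ W₂ := by
    intro x
    rw [hTdef, Submodule.mem_iInf]
    exact Iff.rfl
  have hMm : ∀ x, x ∈ M ↔ ∀ g, π g x ∈ W₁ := by
    intro x
    rw [hMdef, Submodule.mem_iInf]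
    exact Iff.rfl
  have heT : e ∈ T := (hTm e).mpr fun g => (hgg g).1
  have heM : e ∉ M := fun h => (hgg 1).2 ((hMm e).mp h 1)
  have hMT : M ≤ T := by
    intro x hx
    rw [hTm]
    intro g
    exact hW ((hMm x).mp hx g)
  have hTst : ∀ g, ∀ x ∈ T, π g x ∈ T := by
    intro g x hx
    rw [hTm]
    intro g'
    rw [hππ]
    exact (hTm x).mp hx _
  have hMst : ∀ g, ∀ x ∈ M, π g x ∈ M := by
    intro g x hx
    rw [hMm]
    intro g'
    rw [hππ]
    exact (hMm x).mp hx _
  have hNT : ∀ h ∈ N, ∀ x ∈ T, π h x - x ∈ M := by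
    intro h hh x hx
    rw [hMm]
    intro g
    exact hconj g h hh x ((hTm x).mp hx g)
  obtain ⟨-, -, hM1, hM2⟩ := la_pair S e he hSe hkS hk2S T M hMT (by
    intro h
    apply heM
    rw [h]
    exact heT) (fun x hx => hNT h₁ hh₁ x hx)
  -- the form
  have hb0 : ∀ x, b x 0 = 0 := by
    intro x
    have := hsmul x 0 0
    rwa [zero_smul, zero_mul] at this
  have hsub : ∀ x y z, b x (y - z) = b x y - b x z := by
    intro x y z
    have h3 := hsmul x (-1) z
    rw [sub_eq_add_neg, hadd, ← neg_one_smul k z, h3]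
    ring
  have heS : ∀ y, b e (S y) = 0 := by
    intro y
    have h3 := hinv h₁ e y
    rw [hee] at h3
    rw [hSx, hsub, h3, sub_self]
  have hMe : ∀ x ∈ M, b e x = 0 := by
    intro x hx
    obtain ⟨y, hy⟩ := hM1 x hx
    rw [hy]
    exact heS y
  have hbe : b e e ≠ 0 := by
    intro h0
    have hr : LinearMap.range S ≠ ⊤ := by
      intro h
      have h3 := LinearMap.finrank_range_add_finrank_ker S
      rw [h, finrank_top] at h3
      have h4 : LinearMap.ker S = ⊥ := by
        apply Submodule.finrank_eq_zero.mp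
        omega
      have h5 : e ∈ LinearMap.ker S := hSe
      rw [h4, Submodule.mem_bot] at h5
      exact he h5
    obtain ⟨-, -, -, h3⟩ := la_pair S e he hSe hkS hk2S ⊤ (LinearMap.range S) le_top hr
      (fun x _ => ⟨x, rfl⟩)
    apply he
    apply hnd
    intro x
    obtain ⟨c, y, hy⟩ := h3 x trivial
    have h4 : x = c • e + S y := by
      rw [hy]
      abel
    rw [h4, hadd, hsmul, h0, heS, mul_zero, add_zero]
  have hc : ∀ g, ∃ c : k, π g e - c • e ∈ M := fun g => hM2 _ (hTst g e heT)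
  choose c hc using hc
  have huniq : ∀ a a' : k, a • e - a' • e ∈ M → a = a' := by
    intro a a' h
    by_contra hne
    apply heM
    have h3 : e = (a - a')⁻¹ • (a • e - a' • e) := by
      rw [← sub_smul, smul_smul, inv_mul_cancel₀ (sub_ne_zero.mpr hne), one_smul]
    rw [h3]
    exact M.smul_mem _ h
  have hcmul : ∀ g g', c (g * g') = c g * c g' := by
    intro g g'
    apply huniq
    have h3 : c (g * g') • e - (c g * c g') • e = π g (π g' e - c g' • e) +
        c g' • (π g e - c g • e) - (π (g * g') e - c (g * g') • e) := by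
      rw [map_sub, hππ, map_smul, smul_sub, smul_smul, mul_comm (c g')]
      abel
    rw [h3]
    exact M.sub_mem (M.add_mem (hMst g _ (hc g')) (M.smul_mem _ (hc g))) (hc _)
  have hcb : ∀ g, b e (π g e) = c g * b e e := by
    intro g
    have h3 := hMe _ (hc g)
    rw [hsub, hsmul, sub_eq_zero] at h3
    exact h3
  have hcinv : ∀ g, c g⁻¹ = c g := by
    intro g
    apply mul_right_cancel₀ hbe
    rw [← hcb, ← hcb, ← hinv g, hππ, mul_inv_cancel, hπ1, hsymm]
  have hc1 : c 1 = 1 := by
    apply huniq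
    have h3 := hc 1
    rw [hπ1] at h3
    rw [one_smul, ← neg_sub]
    exact M.neg_mem h3
  have hcsq : ∀ g, c g * c g = 1 := by
    intro g
    calc c g * c g = c g * c g⁻¹ := by rw [hcinv]
      _ = 1 := by rw [← hcmul, mul_inv_cancel, hc1]
  obtain ⟨χ, hχ⟩ := la_sign h2 c hcmul hcsq
  refine ⟨χ, e, M, heM, hMst, ?_, ?_⟩
  · intro g
    rw [hχ]
    exact hc g
  · intro h hh
    have h3 : c h = 1 := by
      apply huniq
      have h4 := M.sub_mem (hNT h hh e heT) (hc h)
      have h5 : π h e - e - (π h e - c h • e) = c h • e - (1 : k) • e := by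
        rw [one_smul]
        abel
      rwa [h5] at h4
    rw [← hχ] at h3
    rcases Int.units_eq_one_or (χ h) with h4 | h4
    · exact h4
    · exfalso
      rw [h4] at h3
      apply h2
      have h5 : (-1 : k) = 1 := by simpa using h3
      linear_combination -h5

/-- The value of the character is an eigenvalue. -/
theorem la_eig {k V G : Type} [Field k] [AddCommGroup V] [Module k V] [FiniteDimensional k V]
    [Group G] (π : Representation k G V) (χ : G →* ℤˣ) (e : V) (M : Submodule k V) (he : e ∉ M)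
    (hM : ∀ g, ∀ x ∈ M, π g x ∈ M) (hχ : ∀ g, π g e - ((χ g : ℤ) : k) • e ∈ M) (g : G) :
    ∃ x : V, x ≠ 0 ∧ π g x = ((χ g : ℤ) : k) • x := by
  by_contra hcon
  push Not at hcon
  set a : k := ((χ g : ℤ) : k) with ha
  let S : End k V := π g - a • 1
  have hS : ∀ x, S x = π g x - a • x := fun x => rfl
  have hinj : Function.Injective S := by
    rw [← LinearMap.ker_eq_bot, LinearMap.ker_eq_bot']
    intro x hx
    by_contra hx0
    apply hcon x hx0
    rw [hS, sub_eq_zero] at hx
    exact hx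
  have h1 : (M ⊔ Submodule.span k {e}).map S ≤ M := by
    rintro y ⟨x, hx, rfl⟩
    obtain ⟨y, hy, z, hz, hyz⟩ := Submodule.mem_sup.mp hx
    obtain ⟨c, hc⟩ := Submodule.mem_span_singleton.mp hz
    rw [← hyz, ← hc, map_add, map_smul, hS, hS]
    exact M.add_mem (M.sub_mem (hM g y hy) (M.smul_mem _ hy)) (M.smul_mem _ (hχ g))
  have h2 : finrank k ((M ⊔ Submodule.span k {e}).map S) =
      finrank k (M ⊔ Submodule.span k {e} : Submodule k V) :=
    (LinearEquiv.finrank_eq (Submodule.equivMapOfInjective S hinj _)).symm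
  have h3 := Submodule.finrank_mono h1
  rw [h2] at h3
  have h4 : M < M ⊔ Submodule.span k {e} := by
    apply lt_of_le_of_ne le_sup_left
    intro h
    apply he
    rw [h]
    exact Submodule.mem_sup_right (Submodule.mem_span_singleton_self e)
  have h5 := Submodule.finrank_lt_finrank_of_lt h4
  omega

/-- **The node.** -/
theorem la_node {k V G : Type} [Field k] [AddCommGroup V] [Module k V] [FiniteDimensional k V]
    [Group G] (h2 : (2 : k) ≠ 0) (π : Representation k G V) (χ : G →* ℤˣ) (e : V)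
    (M : Submodule k V) (he : e ∉ M) (hM : ∀ g, ∀ x ∈ M, π g x ∈ M)
    (hχ : ∀ g, π g e - ((χ g : ℤ) : k) • e ∈ M) (s φ : G) (δ : V)
    (hs : ∀ y, ∃ a : k, π s y - y = a • δ) (hsχ : χ s = -1) (hcomm : π φ * π s = π s * π φ) :
    π φ δ = ((χ φ : ℤ) : k) • δ := by
  obtain ⟨a, ha⟩ := hs e
  obtain ⟨a', ha'⟩ := hs (π φ e)
  have h1 : a • δ + (2 : k) • e ∈ M := by
    have h3 := hχ s
    rw [hsχ] at h3
    have h4 : a • δ + (2 : k) • e = π s e - (((-1 : ℤˣ) : ℤ) : k) • e := by
      rw [← ha]
      simp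
      rw [two_smul]
      abel
    rw [h4]
    exact h3
  have ha0 : a ≠ 0 := by
    intro h
    rw [h, zero_smul, zero_add] at h1
    apply he
    have h3 : e = (2 : k)⁻¹ • ((2 : k) • e) := by rw [smul_smul, inv_mul_cancel₀ h2, one_smul]
    rw [h3]
    exact M.smul_mem _ h1
  have h3 : a • π φ δ = a' • δ := by
    rw [← ha', ← map_smul, ← ha, map_sub]
    have h4 : π φ (π s e) = π s (π φ e) := by
      change (π φ * π s) e = (π s * π φ) e
      rw [hcomm]
    rw [h4]
  have h4 : π φ δ = (a⁻¹ * a') • δ := by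
    rw [mul_smul, ← h3, smul_smul, inv_mul_cancel₀ ha0, one_smul]
  set κ : k := a⁻¹ * a' with hκ
  have h5 : (((χ φ : ℤ) : k) - κ) • e ∈ M := by
    have h6 := M.sub_mem (M.sub_mem (hM φ _ h1) (M.smul_mem κ h1))
      (M.smul_mem (2 : k) (hχ φ))
    have h7 : π φ (a • δ + (2 : k) • e) - κ • (a • δ + (2 : k) • e) -
        (2 : k) • (π φ e - ((χ φ : ℤ) : k) • e) = (2 : k) • (((χ φ : ℤ) : k) - κ) • e := by
      rw [map_add, map_smul, map_smul, h4]
      module
    rw [h7] at h6
    have h8 : (((χ φ : ℤ) : k) - κ) • e =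
        (2 : k)⁻¹ • ((2 : k) • (((χ φ : ℤ) : k) - κ) • e) := by
      rw [smul_smul (2 : k)⁻¹, inv_mul_cancel₀ h2, one_smul]
    rw [h8]
    exact M.smul_mem _ h6
  have h6 : ((χ φ : ℤ) : k) = κ := by
    by_contra hne
    apply he
    have h7 : e = (((χ φ : ℤ) : k) - κ)⁻¹ • ((((χ φ : ℤ) : k) - κ) • e) := by
      rw [smul_smul, inv_mul_cancel₀ (sub_ne_zero.mpr hne), one_smul]
    rw [h7]
    exact M.smul_mem _ h5
  rw [h4, h6]

/-- The determinant of an operator that commutes with a reflection. -/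
theorem la_det {k V : Type} [Field k] [AddCommGroup V] [Module k V] [FiniteDimensional k V]
    (R A : End k V) (δ : V) (hδ : R δ ≠ δ) (hR : ∀ y, ∃ a : k, R y - y = a • δ)
    (W : Submodule k V) (hW : ∀ x, x ∈ W ↔ R x = x) (f : End k W) (hf : ∀ v : W, (f v : V) = A v)
    (κ : k) (hκ : A δ = κ • δ) : LinearMap.det A = LinearMap.det f * κ := by
  have hst : W ≤ W.comap A := by
    intro x hx
    have h1 := (f ⟨x, hx⟩).2
    rw [hf] at h1
    exact h1
  have hrest : A.restrict hst = f := by
    apply LinearMap.ext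
    intro v
    apply Subtype.ext
    rw [hf]
    rfl
  have hspan : ∀ y : V, ∃ c : k, y - c • δ ∈ W := by
    obtain ⟨a, ha⟩ := hR δ
    have ha0 : a ≠ 0 := by
      intro h
      rw [h, zero_smul, sub_eq_zero] at ha
      exact hδ ha
    intro y
    obtain ⟨b, hb⟩ := hR y
    refine ⟨b / a, ?_⟩
    rw [hW, map_sub, map_smul, ← sub_eq_zero]
    have h1 : R y - (b / a) • R δ - (y - (b / a) • δ) = (R y - y) - (b / a) • (R δ - δ) := by
      module
    rw [h1, ha, hb, smul_smul, div_mul_cancel₀ _ ha0, sub_self]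
  have hδW : δ ∉ W := fun h => hδ ((hW δ).mp h)
  have hquot : finrank k (V ⧸ W) = 1 := by
    have hne : (Submodule.Quotient.mk δ : V ⧸ W) ≠ 0 := by
      rw [Ne, Submodule.Quotient.mk_eq_zero]
      exact hδW
    rw [finrank_eq_one_iff_of_nonzero' _ hne]
    intro w
    obtain ⟨y, rfl⟩ := Submodule.Quotient.mk_surjective W w
    obtain ⟨c, hc⟩ := hspan y
    refine ⟨c, ?_⟩
    rw [← Submodule.Quotient.mk_smul, eq_comm, Submodule.Quotient.eq]
    exact hc
  have hmapQ : W.mapQ W A hst = κ • (1 : End k (V ⧸ W)) := by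
    apply LinearMap.ext
    intro w
    obtain ⟨y, rfl⟩ := Submodule.Quotient.mk_surjective W w
    rw [Submodule.mapQ_apply, LinearMap.smul_apply, Module.End.one_apply,
      ← Submodule.Quotient.mk_smul, Submodule.Quotient.eq]
    obtain ⟨c, hc⟩ := hspan y
    have h1 : A y - κ • y = A (y - c • δ) - κ • (y - c • δ) := by
      rw [map_sub, map_smul, hκ]
      module
    rw [h1]
    exact W.sub_mem (hst hc) (W.smul_mem _ hc)
  rw [LinearMap.det_eq_det_mul_det W A hst, hrest, hmapQ, LinearMap.det_smul, hquot, pow_one,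
    map_one, mul_one]

/-- An orthogonal matrix in odd dimension has its determinant as an eigenvalue. -/
theorem la_odd {k : Type} [Field k] (h2 : (2 : k) ≠ 0) {m : ℕ} (hm : Odd m)
    (J A : Matrix (Fin m) (Fin m) k) (hJ : J.det ≠ 0) (hA : A.transpose * J * A = J) :
    A.det * A.det = 1 ∧ (Matrix.scalar (Fin m) A.det - A).det = 0 := by
  have hsq : A.det * A.det = 1 := by
    have h4 := congrArg Matrix.det hA
    rw [Matrix.det_mul, Matrix.det_mul, Matrix.det_transpose] at h4
    have h5 : (A.det * A.det - 1) * J.det = 0 := by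
      rw [sub_mul, one_mul, sub_eq_zero]
      calc A.det * A.det * J.det = A.det * J.det * A.det := by ring
        _ = J.det := h4
    exact sub_eq_zero.mp ((mul_eq_zero.mp h5).resolve_right hJ)
  refine ⟨hsq, ?_⟩
  set d := A.det with hd
  have hdm : d ^ m = d := by
    obtain ⟨r, hr⟩ := hm
    rw [hr, pow_succ, pow_mul, sq, hsq, one_pow, one_mul]
  have h1 : A.transpose * J * (Matrix.scalar (Fin m) d - A) =
      d • ((A.transpose - Matrix.scalar (Fin m) d) * J) := by
    rw [mul_sub, hA, sub_mul, smul_sub, Matrix.scalar_apply, ← Matrix.smul_one_eq_diagonal]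
    simp only [Matrix.mul_smul, Matrix.smul_mul, mul_one, one_mul, smul_smul, hsq, one_smul]
  have h3 := congrArg Matrix.det h1
  rw [Matrix.det_mul, Matrix.det_mul, Matrix.det_transpose, Matrix.det_smul, Matrix.det_mul,
    Fintype.card_fin, hdm] at h3
  have h4 : (A.transpose - Matrix.scalar (Fin m) d).det = (A - Matrix.scalar (Fin m) d).det := by
    rw [← Matrix.det_transpose, Matrix.transpose_sub, Matrix.transpose_transpose,
      Matrix.scalar_apply, Matrix.diagonal_transpose]
  have h5 : (A - Matrix.scalar (Fin m) d).det = -(Matrix.scalar (Fin m) d - A).det := by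
    rw [← neg_sub (Matrix.scalar (Fin m) d) A, Matrix.det_neg, Fintype.card_fin, hm.neg_one_pow,
      neg_one_mul]
  rw [h4, h5, ← hd] at h3
  have hd0 : d ≠ 0 := by
    intro h
    rw [h, mul_zero] at hsq
    exact zero_ne_one hsq
  have h6 : (2 : k) * (d * J.det * (Matrix.scalar (Fin m) d - A).det) = 0 := by
    linear_combination h3
  rcases mul_eq_zero.mp h6 with h7 | h7
  · exact absurd h7 h2
  · rcases mul_eq_zero.mp h7 with h8 | h8
    · exact absurd h8 (mul_ne_zero hd0 hJ)
    · exact h8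

end Pool.Agent.OS
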