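import Pool.Agent.Lib_helper46.OS.AR
import Pool.Agent.Lib_helper46.OS.NW
import Pool.Agent.Lib_helper46.OS.LA

/-!
# One sign: the main proof
-/

set_option autoImplicit false

namespace Pool.Agent.OS

open NumberField Topology Polynomial
open Pool.Agent.TT (Qbar)
open Pool.Agent.TF (Stratum strataCard)

/-- The representation on column vectors. -/
noncomputable def mrep {k G : Type} [Field k] [Group G] {m : ℕ}
    (ρ : G →* Matrix (Fin m) (Fin m) k) : Representation k G (Fin m → k) :=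
  ((Matrix.toLinAlgEquiv' : Matrix (Fin m) (Fin m) k ≃ₐ[k] _) : Matrix (Fin m) (Fin m) k →* _).comp ρ

theorem mrep_apply {k G : Type} [Field k] [Group G] {m : ℕ}
    (ρ : G →* Matrix (Fin m) (Fin m) k) (g : G) (x : Fin m → k) :
    mrep ρ g x = (ρ g).mulVec x := rfl

theorem mrep_charpoly {k G : Type} [Field k] [Group G] {m : ℕ}
    (ρ : G →* Matrix (Fin m) (Fin m) k) (g : G) : (mrep ρ g).charpoly = (ρ g).charpoly :=
  Matrix.charpoly_toLin' (ρ g)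

theorem mrep_det {k G : Type} [Field k] [Group G] {m : ℕ}
    (ρ : G →* Matrix (Fin m) (Fin m) k) (g : G) : LinearMap.det (mrep ρ g) = (ρ g).det :=
  LinearMap.det_toLin' (ρ g)

section cont

variable {k : Type} [Field k] [TopologicalSpace k] [IsTopologicalRing k] {m : ℕ}

theorem mn_cont_eval (a : k) :
    Continuous fun A : Matrix (Fin m) (Fin m) k => A.charpoly.eval a := by
  have h1 : (fun A : Matrix (Fin m) (Fin m) k => A.charpoly.eval a) =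
      fun A : Matrix (Fin m) (Fin m) k => (Matrix.scalar (Fin m) a - A).det := by
    funext A
    rw [Matrix.eval_charpoly]
  rw [h1]
  exact Continuous.matrix_det (continuous_const.sub continuous_id)

theorem mn_cont_der :
    Continuous fun A : Matrix (Fin m) (Fin m) k => A.charpoly.derivative.eval 1 := by
  set U := Matrix.charpoly.univ k (Fin m) with hU
  set u := U.derivative.eval 1 with hu
  have h1 : (fun A : Matrix (Fin m) (Fin m) k => A.charpoly.derivative.eval 1) =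
      fun A : Matrix (Fin m) (Fin m) k =>
        MvPolynomial.eval (fun ij : Fin m × Fin m => A ij.1 ij.2) u := by
    funext A
    have h2 : A.charpoly = U.map (MvPolynomial.eval (fun ij : Fin m × Fin m => A ij.1 ij.2)) := by
      have h3 := Matrix.charpoly.univ_map_eval₂Hom (Fin m) (RingHom.id k)
        (fun ij : Fin m × Fin m => A ij.1 ij.2)
      exact h3.symm
    rw [h2, Polynomial.derivative_map, Polynomial.eval_map, hu,
      ← map_one (MvPolynomial.eval (fun ij : Fin m × Fin m => A ij.1 ij.2)),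
      Polynomial.eval₂_at_apply]
  rw [h1]
  have h3 : Continuous fun A : Matrix (Fin m) (Fin m) k =>
      (fun ij : Fin m × Fin m => A ij.1 ij.2) := by
    apply continuous_pi
    intro ij
    exact continuous_id.matrix_elem ij.1 ij.2
  exact (MvPolynomial.continuous_eval u).comp h3

end cont

/-- A family of realizations. -/
structure Realizations {K : Type} [Field K] [Algebra K Qbar] {s : ℕ} (S : Fin s → Stratum K)
    (j : ℕ) (B B₀ : Finset (Ideal (𝓞 K))) (m : ℕ) where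
  ρ : ∀ (ℓ : ℕ) [Fact ℓ.Prime], GalK K →* Matrix (Fin m) (Fin m) ℂ_[ℓ]
  real : ∀ (ℓ : ℕ) [Fact ℓ.Prime], IsRealization S j B B₀ ℓ (ρ ℓ)

section

variable {K : Type} [Field K] [NumberField K] [Algebra K Qbar] {s j m : ℕ}
  {S : Fin s → Stratum K} {B B₀ : Finset (Ideal (𝓞 K))}

/-- The values `N(F) / |F| ^ j` for the extensions of a finite field with `q` elements. -/
def TVals (S : Fin s → Stratum K) (j : ℕ) (𝔭 : Ideal (𝓞 K)) (q : ℕ) (t : ℕ → ℚ) : Prop :=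
  ∀ r : ℕ, 1 ≤ r → ∃ (F : Type) (_ : Field F) (_ : Fintype F) (φ : 𝓞 K →+* F),
    RingHom.ker φ = 𝔭 ∧ Fintype.card F = q ^ r ∧
      (Fintype.card F : ℚ) ^ j * t r = ((strataCard φ S : ℤ) : ℚ)

omit [NumberField K] [Algebra K Qbar] in
theorem mn_tvals (S : Fin s → Stratum K) (j : ℕ) (F : Type) [Field F] [Fintype F]
    (φ : 𝓞 K →+* F) : ∃ t, TVals S j (RingHom.ker φ) (Fintype.card F) t := by
  have h1 : ∀ r : ℕ, ∃ t : ℚ, 1 ≤ r → ∃ (F' : Type) (_ : Field F') (_ : Fintype F')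
      (φ' : 𝓞 K →+* F'), RingHom.ker φ' = RingHom.ker φ ∧ Fintype.card F' = Fintype.card F ^ r ∧
      (Fintype.card F' : ℚ) ^ j * t = ((strataCard φ' S : ℤ) : ℚ) := by
    intro r
    by_cases hr : 1 ≤ r
    · obtain ⟨F', _, _, ψ, hcard⟩ := ar_ext F r hr
      refine ⟨((strataCard (ψ.comp φ) S : ℤ) : ℚ) / (Fintype.card F' : ℚ) ^ j, fun _ =>
        ⟨F', inferInstance, inferInstance, ψ.comp φ, ?_, hcard, ?_⟩⟩
      · ext x
        rw [RingHom.mem_ker, RingHom.mem_ker, RingHom.comp_apply,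
          map_eq_zero_iff _ ψ.injective]
      · have h2 : (Fintype.card F' : ℚ) ^ j ≠ 0 := by
          apply pow_ne_zero
          exact_mod_cast Fintype.card_ne_zero
        rw [mul_div_cancel₀ _ h2]
    · exact ⟨0, fun h => absurd h hr⟩
  choose t ht using h1
  exact ⟨t, fun r hr => ht r hr⟩

omit [NumberField K] in
/-- The traces of the powers. -/
theorem mn_good (V : Realizations S j B B₀ m) (ℓ : ℕ) [Fact ℓ.Prime] (𝔓 : Ideal (𝓞 Qbar))
    (hm : 𝔓.IsMaximal) (hB : below K 𝔓 ∉ B) (hℓ : (ℓ : 𝓞 Qbar) ∉ 𝔓) {q : ℕ} {t : ℕ → ℚ}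
    (ht : TVals S j (below K 𝔓) q t) {σ : Qbar ≃ₐ[K] Qbar} (hσ : Induces 𝔓 q σ) (r : ℕ)
    (hr : 1 ≤ r) : (V.ρ ℓ σ⁻¹ ^ r).trace = algebraMap ℚ ℂ_[ℓ] (t r) := by
  obtain ⟨F, _, _, φ, hφ, hcard, htr⟩ := ht r hr
  have h1 := (V.real ℓ).traces 𝔓 hm hℓ hB F φ hφ (σ ^ r) (by
    rw [hcard]
    exact ar_pow hσ r)
  have h2 : (Fintype.card F : ℂ_[ℓ]) ^ j ≠ 0 := by
    apply pow_ne_zero
    exact_mod_cast Fintype.card_ne_zero
  apply mul_left_cancel₀ h2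
  rw [← map_pow, inv_pow, h1]
  have h3 := congrArg (algebraMap ℚ ℂ_[ℓ]) htr
  rw [map_mul, map_pow, map_natCast, map_intCast] at h3
  exact h3.symm

theorem mn_monic {k : Type} [Field k] (A : Matrix (Fin m) (Fin m) k) :
    A.charpoly.Monic ∧ A.charpoly.natDegree = m :=
  ⟨Matrix.charpoly_monic A, by rw [Matrix.charpoly_natDegree_eq_dim, Fintype.card_fin]⟩

/-- The characteristic polynomials for two primes. -/
theorem mn_poly2 (V : Realizations S j B B₀ m) (ℓ p : ℕ) [Fact ℓ.Prime] [Fact p.Prime]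
    (𝔓 : Ideal (𝓞 Qbar)) (hm : 𝔓.IsMaximal) (hB : below K 𝔓 ∉ B) (hℓ : (ℓ : 𝓞 Qbar) ∉ 𝔓)
    (hp : (p : 𝓞 Qbar) ∉ 𝔓) {q : ℕ} {t : ℕ → ℚ} (ht : TVals S j (below K 𝔓) q t)
    {σ : Qbar ≃ₐ[K] Qbar} (hσ : Induces 𝔓 q σ) :
    ∃ f : ℚ[X], (V.ρ ℓ σ⁻¹).charpoly = f.map (algebraMap ℚ ℂ_[ℓ]) ∧
      (V.ρ p σ⁻¹).charpoly = f.map (algebraMap ℚ ℂ_[p]) := by
  refine nw_poly (algebraMap ℚ ℂ_[ℓ]) (algebraMap ℚ ℂ_[p]) m _ _ (mn_monic _).1 (mn_monic _).1
    (mn_monic _).2 (mn_monic _).2 t ?_ ?_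
  · intro r hr _
    rw [← Pool.Agent.TU.tu_mtrace]
    exact mn_good V ℓ 𝔓 hm hB hℓ ht hσ r hr
  · intro r hr _
    rw [← Pool.Agent.TU.tu_mtrace]
    exact mn_good V p 𝔓 hm hB hp ht hσ r hr

omit [NumberField K] [Algebra K Qbar] in
/-- The power sums of the Frobenius polynomial. -/
theorem mn_sums (𝔭 : Ideal (𝓞 K)) {d : ℕ} {P : ℚ[X]} (hP : IsFrobPoly S j 𝔭 d P) {t : ℕ → ℚ}
    (ht : TVals S j 𝔭 (Nat.card (𝓞 K ⧸ 𝔭)) t) (r : ℕ) (hr : 1 ≤ r) (hrd : r ≤ d) :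
    ((P.map (algebraMap ℚ ℂ)).roots.map (fun x => x ^ r)).sum = algebraMap ℚ ℂ (t r) := by
  obtain ⟨F, _, _, φ, hφ, hcard, htr⟩ := ht r hr
  have h1 := hP.2.2 r hr hrd F φ hφ hcard
  have h2 : (Fintype.card F : ℂ) ^ j ≠ 0 := by
    apply pow_ne_zero
    exact_mod_cast Fintype.card_ne_zero
  apply mul_left_cancel₀ h2
  have h3 := congrArg (algebraMap ℚ ℂ) htr
  rw [map_mul, map_pow, map_natCast, map_intCast] at h3
  rw [h3]
  exact h1

/-- The residue field. -/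
theorem mn_res (S : Fin s → Stratum K) (j : ℕ) (𝔓 : Ideal (𝓞 Qbar)) (hm : 𝔓.IsMaximal) :
    ∃ t, TVals S j (below K 𝔓) (Nat.card (𝓞 K ⧸ below K 𝔓)) t := by
  obtain ⟨hmax, hfin⟩ := ar_finite (K := K) 𝔓 hm
  let _ := Ideal.Quotient.field (below K 𝔓)
  let _ : Fintype (𝓞 K ⧸ below K 𝔓) := Fintype.ofFinite _
  have h1 := mn_tvals S j (𝓞 K ⧸ below K 𝔓) (Ideal.Quotient.mk (below K 𝔓))
  rw [Ideal.mk_ker, ← Nat.card_eq_fintype_card] at h1
  exact h1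

/-- The characteristic polynomial is the Frobenius polynomial. -/
theorem mn_polyP (V : Realizations S j B B₀ m) (ℓ : ℕ) [Fact ℓ.Prime] (𝔓 : Ideal (𝓞 Qbar))
    (hm : 𝔓.IsMaximal) (hB : below K 𝔓 ∉ B) (hℓ : (ℓ : 𝓞 Qbar) ∉ 𝔓) {P : ℚ[X]}
    (hP : IsFrobPoly S j (below K 𝔓) m P) {σ : Qbar ≃ₐ[K] Qbar}
    (hσ : Induces 𝔓 (Nat.card (𝓞 K ⧸ below K 𝔓)) σ) :
    (V.ρ ℓ σ⁻¹).charpoly = P.map (algebraMap ℚ ℂ_[ℓ]) := by
  obtain ⟨t, ht⟩ := mn_res S j 𝔓 hm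
  obtain ⟨f, hf1, hf2⟩ := nw_poly (algebraMap ℚ ℂ_[ℓ]) (algebraMap ℚ ℂ) m (V.ρ ℓ σ⁻¹).charpoly
    (P.map (algebraMap ℚ ℂ)) (mn_monic _).1 (hP.1.map _) (mn_monic _).2
    (by rw [Polynomial.natDegree_map]; exact hP.2.1) t (by
    intro r hr _
    rw [← Pool.Agent.TU.tu_mtrace]
    exact mn_good V ℓ 𝔓 hm hB hℓ ht hσ r hr) (fun r hr hrd => mn_sums _ hP ht r hr hrd)
  have h1 : P = f := Polynomial.map_injective _ (algebraMap ℚ ℂ).injective hf2
  rw [hf1, h1]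

/-- **Density.** -/
theorem mn_dense (V : Realizations S j B B₀ m) (ℓ p : ℕ) [hℓ : Fact ℓ.Prime] [hp : Fact p.Prime]
    (g : Qbar ≃ₐ[K] Qbar) (U : Set (Qbar ≃ₐ[K] Qbar)) (hU : U ∈ 𝓝 g) :
    ∃ y ∈ U, ∃ f : ℚ[X], (V.ρ ℓ y).charpoly = f.map (algebraMap ℚ ℂ_[ℓ]) ∧
      (V.ρ p y).charpoly = f.map (algebraMap ℚ ℂ_[p]) := by
  classical
  have hU' : {σ : Qbar ≃ₐ[K] Qbar | σ⁻¹ ∈ U} ∈ 𝓝 g⁻¹ := by
    apply continuous_inv.continuousAt.preimage_mem_nhds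
    rw [inv_inv]
    exact hU
  obtain ⟨q, hq, hqB, Q, hQ, hqQ, σ, hσU, hσ⟩ := Pool.Agent.TB.fb_dense g⁻¹ _ hU'
    (B.image (fun 𝔭 => ringChar (𝓞 K ⧸ 𝔭)) ∪ {ℓ, p})
  rw [Finset.mem_union, not_or, Finset.mem_insert, Finset.mem_singleton, not_or] at hqB
  obtain ⟨hqB, hqℓ, hqp⟩ := hqB
  have hmax := ar_max hq Q hQ hqQ
  have hne : ∀ l : ℕ, l.Prime → q ≠ l → (l : 𝓞 Qbar) ∉ Q := fun l hl hne h =>
    hne (ar_unique Q hQ.ne_top hq hl hqQ h)
  have hB : below K Q ∉ B := by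
    intro h
    apply hqB
    rw [Finset.mem_image]
    refine ⟨_, h, ?_⟩
    obtain ⟨hmax', -⟩ := ar_finite (K := K) Q hmax
    have h1 : (q : 𝓞 K ⧸ below K Q) = 0 := by
      have h2 : (q : 𝓞 K) ∈ below K Q := by
        rw [below, Ideal.mem_comap, map_natCast]
        exact hqQ
      have h3 := Ideal.Quotient.eq_zero_iff_mem.mpr h2
      rwa [map_natCast] at h3
    rcases (Nat.dvd_prime hq).mp (ringChar.dvd h1) with h2 | h2
    · exfalso
      have h3 := ringChar.charP (𝓞 K ⧸ below K Q)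
      rw [h2] at h3
      have h4 : ((1 : ℕ) : 𝓞 K ⧸ below K Q) = 0 := CharP.cast_eq_zero _ _
      rw [Nat.cast_one] at h4
      have : Nontrivial (𝓞 K ⧸ below K Q) := Ideal.Quotient.nontrivial_iff.mpr hmax'.ne_top
      exact one_ne_zero h4
    · exact h2
  have hqF : Fact q.Prime := ⟨hq⟩
  obtain ⟨φ, hφ, -⟩ := Pool.Agent.TF.ft_phi hq hQ hqQ hσ
  have hker : RingHom.ker φ = below K Q := by
    ext x
    rw [RingHom.mem_ker, hφ, below, Ideal.mem_comap]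
  obtain ⟨t, ht⟩ := mn_tvals S j (ZMod q) φ
  rw [hker, ZMod.card] at ht
  obtain ⟨f, hf1, hf2⟩ := mn_poly2 V ℓ p Q hmax hB (hne ℓ hℓ.out hqℓ) (hne p hp.out hqp) ht
    (σ := σ) hσ
  exact ⟨σ⁻¹, hσU, f, hf1, hf2⟩

end

end Pool.Agent.OS
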