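import Pool.Agent.Lib_helper61.TB.Det
import Pool.Agent.Lib_helper61.TB.FT
import Pool.Agent.Lib_helper46.OS.Defs

/-!
# Primes of the ring of algebraic integers, Frobenius elements and finite fields
-/

set_option autoImplicit false

namespace Pool.Agent.OS

open NumberField Topology
open Pool.Agent.TT (Qbar)

/-- A prime ideal that contains a prime number is maximal. -/
theorem ar_max {p : ℕ} (hp : p.Prime) (Q : Ideal (𝓞 Qbar)) (hQ : Q.IsPrime)
    (hpQ : (p : 𝓞 Qbar) ∈ Q) : Q.IsMaximal := by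
  have hmax : (Ideal.span {(p : ℤ)}).IsMaximal := by
    have : Fact p.Prime := ⟨hp⟩
    exact Int.ideal_span_isMaximal_of_prime p
  have hQ2 : Q.comap (algebraMap ℤ (𝓞 Qbar)) = Ideal.span {(p : ℤ)} := by
    symm
    apply hmax.eq_of_le
    · exact (Ideal.comap_isPrime _ _).ne_top
    · rw [Ideal.span_singleton_le_iff_mem, Ideal.mem_comap]
      simpa using hpQ
  exact Ideal.isMaximal_of_isIntegral_of_isMaximal_comap Q (by
    rw [hQ2]; exact hmax)

/-- A maximal ideal contains a prime number. -/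
theorem ar_prime (Q : Ideal (𝓞 Qbar)) (hQ : Q.IsMaximal) :
    ∃ p : ℕ, p.Prime ∧ (p : 𝓞 Qbar) ∈ Q := by
  have hmax : (Q.comap (algebraMap ℤ (𝓞 Qbar))).IsMaximal :=
    Ideal.isMaximal_comap_of_isIntegral_of_isMaximal Q
  have hne : Q.comap (algebraMap ℤ (𝓞 Qbar)) ≠ ⊥ :=
    Ring.ne_bot_of_isMaximal_of_not_isField hmax Int.not_isField
  obtain ⟨n, hn, hn0⟩ := Submodule.exists_mem_ne_zero_of_ne_bot hne
  have h1 : ((n.natAbs : ℕ) : 𝓞 Qbar) ∈ Q := by
    rw [Ideal.mem_comap] at hn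
    rcases Int.natAbs_eq n with h | h
    · have h2 : ((n.natAbs : ℕ) : 𝓞 Qbar) = algebraMap ℤ (𝓞 Qbar) n := by
        conv_rhs => rw [h]
        simp
      rw [h2]
      exact hn
    · have h2 : ((n.natAbs : ℕ) : 𝓞 Qbar) = -algebraMap ℤ (𝓞 Qbar) n := by
        conv_rhs => rw [h]
        simp
      rw [h2]
      exact Q.neg_mem hn
  have key : ∀ k : ℕ, k ≠ 0 → (k : 𝓞 Qbar) ∈ Q → ∃ p : ℕ, p.Prime ∧ (p : 𝓞 Qbar) ∈ Q := by
    intro k
    induction k using Nat.strong_induction_on with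
    | _ k ih =>
      intro hk hkQ
      by_cases hk1 : k = 1
      · exfalso
        rw [hk1, Nat.cast_one] at hkQ
        exact hQ.ne_top ((Ideal.eq_top_iff_one Q).mpr hkQ)
      · obtain ⟨c, hc⟩ := Nat.minFac_dvd k
        have hp := Nat.minFac_prime hk1
        have hkQ' : ((k.minFac : ℕ) : 𝓞 Qbar) * (c : 𝓞 Qbar) ∈ Q := by
          rw [← Nat.cast_mul, ← hc]
          exact hkQ
        rcases hQ.isPrime.mem_or_mem hkQ' with h | h
        · exact ⟨_, hp, h⟩
        · have hc0 : c ≠ 0 := by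
            rintro rfl
            rw [mul_zero] at hc
            exact hk hc
          refine ih c ?_ hc0 h
          rw [hc]
          calc c = 1 * c := (one_mul c).symm
            _ < k.minFac * c := Nat.mul_lt_mul_of_pos_right hp.one_lt (Nat.pos_of_ne_zero hc0)
  exact key _ (Int.natAbs_ne_zero.mpr hn0) h1

/-- A maximal ideal contains only one prime number. -/
theorem ar_unique (Q : Ideal (𝓞 Qbar)) (hQ : Q ≠ ⊤) {p q : ℕ} (hp : p.Prime) (hq : q.Prime)
    (hpQ : (p : 𝓞 Qbar) ∈ Q) (hqQ : (q : 𝓞 Qbar) ∈ Q) : p = q := by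
  by_contra hne
  have h5 : IsCoprime (p : ℤ) (q : ℤ) :=
    Nat.isCoprime_iff_coprime.mpr ((Nat.coprime_primes hp hq).mpr hne)
  obtain ⟨a, b, hab⟩ := h5
  apply hQ
  rw [Ideal.eq_top_iff_one]
  have h6 : (1 : 𝓞 Qbar) = (a : 𝓞 Qbar) * (p : 𝓞 Qbar) + (b : 𝓞 Qbar) * (q : 𝓞 Qbar) := by
    have h7 := congrArg (Int.cast : ℤ → 𝓞 Qbar) hab
    push_cast at h7
    exact h7.symm
  rw [h6]
  exact Q.add_mem (Q.mul_mem_left _ hpQ) (Q.mul_mem_left _ hqQ)

section

variable {K : Type} [Field K] [NumberField K] [Algebra K Qbar]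

theorem ar_alg : Algebra.IsAlgebraic K Qbar := by
  have : Algebra.IsAlgebraic ℚ Qbar := AlgebraicClosure.isAlgebraic ℚ
  exact Algebra.IsAlgebraic.tower_top (K := ℚ) K

theorem ar_galois : IsGalois K Qbar := by
  have hac : Algebra.IsAlgebraic K Qbar := ar_alg
  have : Algebra.IsSeparable K Qbar := inferInstance
  have : Normal K Qbar := by
    have : IsAlgClosed Qbar := inferInstance
    have : IsAlgClosure K Qbar := ⟨this, hac⟩
    exact IsAlgClosure.normal K Qbar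
  exact {}

/-- The residue field of `K` at `Q` is finite. -/
theorem ar_finite (Q : Ideal (𝓞 Qbar)) (hQ : Q.IsMaximal) :
    (below K Q).IsMaximal ∧ Finite (𝓞 K ⧸ below K Q) := by
  have hint : Algebra.IsIntegral ℤ (𝓞 Qbar) := inferInstance
  have hint2 : Algebra.IsIntegral (𝓞 K) (𝓞 Qbar) := Algebra.IsIntegral.tower_top (R := ℤ)
  have hmax : (below K Q).IsMaximal := Ideal.isMaximal_comap_of_isIntegral_of_isMaximal Q
  refine ⟨hmax, ?_⟩
  obtain ⟨p, hp, hpQ⟩ := ar_prime Q hQ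
  have hne : below K Q ≠ ⊥ := by
    intro h
    have h1 : (p : 𝓞 K) ∈ below K Q := by
      rw [below, Ideal.mem_comap, map_natCast]
      exact hpQ
    rw [h, Ideal.mem_bot] at h1
    have h2 : p = 0 := by exact_mod_cast h1
    exact hp.ne_zero h2
  exact Ideal.finiteQuotientOfFreeOfNeBot _ hne

/-- **Existence of Frobenius elements.** -/
theorem ar_frob (Q : Ideal (𝓞 Qbar)) (hQ : Q.IsMaximal) :
    ∃ σ : Qbar ≃ₐ[K] Qbar, Induces Q (Nat.card (𝓞 K ⧸ below K Q)) σ := by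
  obtain ⟨hmax, hfin⟩ := ar_finite (K := K) Q hQ
  set P := below K Q with hP
  let _ : TopologicalSpace (𝓞 Qbar) := ⊥
  have : DiscreteTopology (𝓞 Qbar) := ⟨rfl⟩
  have hgal : IsGalois K Qbar := ar_galois
  have halg : Algebra.IsAlgebraic K Qbar := ar_alg
  have hstab : ∀ x : 𝓞 Qbar,
      IsOpen (MulAction.stabilizer (Qbar ≃ₐ[K] Qbar) x : Set (Qbar ≃ₐ[K] Qbar)) := by
    intro x
    have h := stabilizer_isOpen_of_isIntegral (K := K) (L := Qbar) (x : Qbar)
    have h2 : (MulAction.stabilizer (Qbar ≃ₐ[K] Qbar) x : Set (Qbar ≃ₐ[K] Qbar)) =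
        (MulAction.stabilizer (Qbar ≃ₐ[K] Qbar) (x : Qbar) : Set (Qbar ≃ₐ[K] Qbar)) := by
      ext g
      simp only [SetLike.mem_coe, MulAction.mem_stabilizer_iff]
      constructor
      · intro hg
        have := congrArg (fun y : 𝓞 Qbar => (y : Qbar)) hg
        exact this
      · intro hg
        apply NumberField.RingOfIntegers.coe_injective
        exact hg
    rw [h2]
    exact h
  have : ContinuousSMul (Qbar ≃ₐ[K] Qbar) (𝓞 Qbar) :=
    continuousSMul_iff_stabilizer_isOpen.mpr hstab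
  have : SMulCommClass (Qbar ≃ₐ[K] Qbar) (𝓞 K) (𝓞 Qbar) := by
    refine ⟨fun g a x => ?_⟩
    apply NumberField.RingOfIntegers.coe_injective
    rw [Algebra.smul_def, Algebra.smul_def]
    change g (((algebraMap (𝓞 K) (𝓞 Qbar) a : 𝓞 Qbar) : Qbar) * (x : Qbar)) =
      ((algebraMap (𝓞 K) (𝓞 Qbar) a : 𝓞 Qbar) : Qbar) * g (x : Qbar)
    have h1 : ((algebraMap (𝓞 K) (𝓞 Qbar) a : 𝓞 Qbar) : Qbar) = algebraMap K Qbar (a : K) := rfl
    rw [map_mul, h1, g.commutes]
  have : Algebra.IsInvariant (𝓞 K) (𝓞 Qbar) (Qbar ≃ₐ[K] Qbar) := by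
    refine ⟨fun x h => ?_⟩
    have h1 : (x : Qbar) ∈ Set.range (algebraMap K Qbar) := by
      rw [InfiniteGalois.mem_range_algebraMap_iff_fixed]
      intro g
      have := congrArg (fun y : 𝓞 Qbar => (y : Qbar)) (h g)
      exact this
    obtain ⟨r, hr⟩ := h1
    have h2 : IsIntegral ℤ r := by
      have h3 : IsIntegral ℤ (algebraMap K Qbar r) := by
        rw [hr]; exact x.2
      exact (isIntegral_algHom_iff (algebraMap K Qbar).toIntAlgHom
        (algebraMap K Qbar).injective).mp h3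
    refine ⟨⟨r, h2⟩, ?_⟩
    apply NumberField.RingOfIntegers.coe_injective
    exact hr
  have : Q.LiesOver P := ⟨hP⟩
  have hmaxQ : Q.IsMaximal := hQ
  let _ := Ideal.Quotient.field P
  let _ := Ideal.Quotient.field Q
  have : Fintype (𝓞 K ⧸ P) := Fintype.ofFinite _
  have hint : Algebra.IsIntegral ℤ (𝓞 Qbar) := inferInstance
  have hint2 : Algebra.IsIntegral (𝓞 K) (𝓞 Qbar) := Algebra.IsIntegral.tower_top (R := ℤ)
  have : Algebra.IsAlgebraic (𝓞 K ⧸ P) (𝓞 Qbar ⧸ Q) := inferInstance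
  obtain ⟨⟨σ, hσ⟩, hσ2⟩ := Ideal.Quotient.stabilizerHom_surjective_of_profinite
    (G := (Qbar ≃ₐ[K] Qbar)) P Q
    (FiniteField.frobeniusAlgEquivOfAlgebraic (𝓞 K ⧸ P) (𝓞 Qbar ⧸ Q))
  refine ⟨σ, ?_⟩
  intro x y hxy
  have h1 := congrArg (fun f => f (Ideal.Quotient.mk Q x)) hσ2
  have h1' : Ideal.Quotient.stabilizerHom Q P (Qbar ≃ₐ[K] Qbar) ⟨σ, hσ⟩
      (Ideal.Quotient.mk Q x) = (Ideal.Quotient.mk Q x) ^ Fintype.card (𝓞 K ⧸ P) := by
    refine h1.trans ?_
    simp
  have h2 : y = σ • x := by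
    apply NumberField.RingOfIntegers.coe_injective
    exact hxy
  rw [← Ideal.Quotient.eq_zero_iff_mem, map_sub, map_pow, sub_eq_zero, h2,
    Nat.card_eq_fintype_card, ← h1']
  rfl

end

/-- Powers of Frobenius elements. -/
theorem ar_pow {K : Type} [Field K] [Algebra K Qbar] {Q : Ideal (𝓞 Qbar)} {n : ℕ}
    {σ : Qbar ≃ₐ[K] Qbar} (hσ : Induces Q n σ) (r : ℕ) : Induces Q (n ^ r) (σ ^ r) := by
  induction r with
  | zero =>
    intro x y h
    have h1 : y = x := by
      apply RingOfIntegers.ext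
      rw [h]
      rfl
    rw [h1, pow_zero, pow_one, sub_self]
    exact Q.zero_mem
  | succ r ih =>
    intro x y h
    have hz : IsIntegral ℤ ((σ ^ r) (x : Qbar)) := by
      have h2 : IsIntegral ℤ (x : Qbar) := x.2
      exact h2.map (((σ ^ r : Qbar ≃ₐ[K] Qbar) : Qbar →ₐ[K] Qbar) : Qbar →+* Qbar).toIntAlgHom
    let z : 𝓞 Qbar := ⟨(σ ^ r) (x : Qbar), hz⟩
    have h1 := ih x z rfl
    have h2 : y - z ^ n ∈ Q := by
      apply hσ
      rw [h, pow_succ']
      rfl
    have h3 : z ^ n - (x ^ n ^ r) ^ n ∈ Q := by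
      obtain ⟨w, hw⟩ := sub_dvd_pow_sub_pow z (x ^ n ^ r) n
      rw [hw]
      exact Q.mul_mem_right _ h1
    have h4 := Q.add_mem h2 h3
    rw [sub_add_sub_cancel] at h4
    rw [pow_succ, pow_mul]
    exact h4

/-- A finite field has extensions of every degree. -/
theorem ar_ext (F : Type) [Field F] [Fintype F] (r : ℕ) (hr : 1 ≤ r) :
    ∃ (F' : Type) (_ : Field F') (_ : Fintype F') (_ : F →+* F'),
      Fintype.card F' = Fintype.card F ^ r := by
  obtain ⟨p, hchar⟩ := CharP.exists F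
  have hp : Fact p.Prime := ⟨CharP.char_is_prime F p⟩
  have : NeZero r := ⟨by omega⟩
  let _ : Fintype (FiniteField.Extension F p r) := Fintype.ofFinite _
  refine ⟨FiniteField.Extension F p r, inferInstance, inferInstance,
    algebraMap F (FiniteField.Extension F p r), ?_⟩
  rw [← Nat.card_eq_fintype_card, ← Nat.card_eq_fintype_card, FiniteField.natCard_extension]

end Pool.Agent.OS
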